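import Pool.Agent.Helper42.TGX.GoalsD
import Pool.Agent.Helper25.TG.THX
import Pool.Agent.Helper12.SGB.All
import Pool.Agent.Helper60.SG2.NZFT

/-!
# Project TGX (MP_a41896_nt), packet TGX-DUPC: the duplication
-/

set_option autoImplicit false

open Polynomial

namespace Pool.Agent.Helper57.TGX

open WeierstrassCurve
open Pool.Agent.Helper29.BL Pool.Agent.Helper42.SG Pool.Agent.Helper42.TGX

/-- numerator and denominator are coprime -/
theorem dup_cop (k : Type) [Field k] (W : Affine k) (hW : W.IsElliptic) :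
    IsCoprime (dA W) (dB W) := by
  have hΔ : W.Δ ≠ 0 := hW.isUnit.ne_zero
  have hrel : 4 * (C W.b₈ : k[X]) = C W.b₂ * C W.b₆ - C W.b₄ ^ 2 := by
    have h := congrArg (C : k →+* k[X]) W.b_relation
    simp only [map_mul, map_sub, map_pow, map_ofNat] at h
    exact h
  have hD : (C W.Δ : k[X]) = -(C W.b₂) ^ 2 * C W.b₈ - 8 * C W.b₄ ^ 3 - 27 * C W.b₆ ^ 2 +
      9 * C W.b₂ * C W.b₄ * C W.b₆ := by
    unfold WeierstrassCurve.Δ
    simp only [map_add, map_mul, map_sub, map_neg, map_pow, map_ofNat]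
  have hA : dA W = X ^ 4 - C W.b₄ * X ^ 2 - (2 * C W.b₆) * X - C W.b₈ := by
    unfold dA
    simp only [map_mul, map_ofNat]
  have hB : dB W = 4 * X ^ 3 + C W.b₂ * X ^ 2 + (2 * C W.b₄) * X + C W.b₆ := by
    unfold dB
    simp only [map_mul, map_ofNat]
  have key : (-(48 * X ^ 2 + 8 * C W.b₂ * X + 32 * C W.b₄ - C W.b₂ ^ 2)) * dA W +
      (12 * X ^ 3 - C W.b₂ * X ^ 2 - 10 * C W.b₄ * X + C W.b₂ * C W.b₄ - 27 * C W.b₆) * dB W =
      C W.Δ := by
    rw [hA, hB, hD]
    linear_combination (12 * X ^ 2 + 2 * C W.b₂ * X + 8 * C W.b₄) * hrel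
  refine ⟨C (W.Δ)⁻¹ * (-(48 * X ^ 2 + 8 * C W.b₂ * X + 32 * C W.b₄ - C W.b₂ ^ 2)),
    C (W.Δ)⁻¹ * (12 * X ^ 3 - C W.b₂ * X ^ 2 - 10 * C W.b₄ * X + C W.b₂ * C W.b₄ - 27 * C W.b₆), ?_⟩
  have h1 : (C (W.Δ)⁻¹ : k[X]) * C W.Δ = 1 := by
    rw [← C_mul, inv_mul_cancel₀ hΔ, C_1]
  rw [← h1, ← key]
  ring

theorem dup_deg (k : Type) [Field k] [CharZero k] (W : Affine k) :
    (dA W).natDegree = 4 ∧ (dB W).natDegree = 3 := by
  constructor
  · unfold dA
    compute_degree!
  · unfold dB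
    have h : (4 : k) ≠ 0 := by norm_num
    compute_degree!

theorem t_DUPC : DUPC := by
  refine ⟨fun k _ _ W hW => ⟨dup_cop k W hW, dup_deg k W⟩, ?_⟩
  intro F _ _ _ W hW P hP
  have hB : eval (xc P) (dB W) = Bf W (xc P) := by
    unfold dB Bf
    simp only [eval_add, eval_mul, eval_C, eval_pow, eval_X]
  have hps := Pool.Agent.Helper60.SG2.nzt_ps W P hP
  constructor
  · rw [hB, ← hps, add_eq_zero_iff_eq_neg]
    cases P with
    | zero => exact absurd rfl hP
    | some x y h =>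
      have e1 : ps (Affine.Point.some x y h) = 2 * y + W.a₁ * x + W.a₃ := rfl
      rw [e1, Affine.Point.neg_some, Affine.Point.some.injEq, pow_eq_zero_iff two_ne_zero]
      unfold Affine.negY
      constructor
      · rintro ⟨_, h2⟩
        linear_combination h2
      · intro h2
        exact ⟨rfl, by linear_combination h2⟩
  · intro hPP
    have := hW
    have h1 := Pool.Agent.Helper25.TG.THX.t Pool.Agent.Helper12.SGB.th_ELAW F W P P two_ne_zero hP hP hPP
    unfold Pool.Agent.Helper3.TG.TH at h1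
    unfold dA dB
    simp only [eval_add, eval_sub, eval_mul, eval_C, eval_pow, eval_X]
    linear_combination -h1

end Pool.Agent.Helper57.TGX
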